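import Pool.Agent.Helper73.OmegaTerms
import Pool.Agent.Helper73.OmegaFinal

/-!
# `Ω_C` is not computable in `Ω_b` and `∃²`
-/

namespace Pool.Agent.Results.MP_242061_lc.OmegaCNotComputable

open Pool.Agent.Helper73.Omega

/-- There is no term `s` of Platek's calculus, with free variables for `Ω_b` and `∃²`, whose
value for these two functionals extends the functional `Ω_C`. -/
theorem result :
    ¬ ∃ s : Tm [three, two] three, omegaC ≤ s.den (Env.cons omegaB (Env.cons ex2 Env.nil)) :=
  not_computable

end Pool.Agent.Results.MP_242061_lc.OmegaCNotComputable
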